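import Pool.Agent.H64.STAT.Rows
import Pool.Agent.H64.STAT.Cb

/-!
# Row SUB of the weighted core

A polynomial which is small on the image of a submersive walk is small.
-/

set_option autoImplicit false

namespace Pool.STAT

open Finset MvPolynomial
open Pool.BFL (Pl CB)

namespace SubRow

variable {c n N : ℕ}

/-- The total degree is at most `K`, the coefficients are at most `K R ^ K δ`. -/
def QB (K : ℕ) (R δ : ℝ) (P : Pl c) : Prop := P.totalDegree ≤ K ∧ CB P (K * R ^ K * δ)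

theorem krd_mono {K K' : ℕ} {R δ : ℝ} (h : K ≤ K') (hR : 1 ≤ R) (hδ : 0 ≤ δ) :
    (K : ℝ) * R ^ K * δ ≤ K' * R ^ K' * δ :=
  mul_le_mul_of_nonneg_right (kr_mono h hR) hδ

theorem QB.mono {K K' : ℕ} {R δ : ℝ} {P : Pl c} (h : QB K R δ P) (hK : K ≤ K') (hR : 1 ≤ R)
    (hδ : 0 ≤ δ) : QB K' R δ P := ⟨h.1.trans hK, cb_mono h.2 (krd_mono hK hR hδ)⟩

theorem QB.sub {K K' : ℕ} {R δ : ℝ} {P Q : Pl c} (hR : 1 ≤ R) (hδ : 0 ≤ δ) (h : QB K R δ P)
    (h' : QB K' R δ Q) : QB (K + K') R δ (P - Q) := by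
  refine ⟨(totalDegree_sub _ _).trans (max_le (h.1.trans (Nat.le_add_right _ _))
    (h'.1.trans (Nat.le_add_left _ _))), cb_mono (cb_sub h.2 h'.2) ?_⟩
  have h1 : R ^ K ≤ R ^ (K + K') := pow_le_pow_right₀ hR (Nat.le_add_right _ _)
  have h2 : R ^ K' ≤ R ^ (K + K') := pow_le_pow_right₀ hR (Nat.le_add_left _ _)
  have h3 : (0 : ℝ) ≤ K := by positivity
  have h4 : (0 : ℝ) ≤ K' := by positivity
  rw [← add_mul]
  refine mul_le_mul_of_nonneg_right ?_ hδ
  push_cast
  nlinarith [mul_le_mul_of_nonneg_left h1 h3, mul_le_mul_of_nonneg_left h2 h4]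

theorem QB.mul {K K' : ℕ} {R δ : ℝ} {P Q : Pl c} (hR : 1 ≤ R) (hδ : 0 ≤ δ) (h : PB K R P)
    (h' : QB K' R δ Q) : QB ((K + 1) ^ c * (K * K') + (K + K')) R δ (P * Q) := by
  refine ⟨(totalDegree_mul _ _).trans ((add_le_add h.1 h'.1).trans (Nat.le_add_left _ _)),
    cb_mono (cb_mul h.1 (kr_nonneg K hR) (mul_nonneg (kr_nonneg K' hR) hδ) h.2 h'.2) ?_⟩
  have h1 : R ^ (K + K') ≤ R ^ ((K + 1) ^ c * (K * K') + (K + K')) :=
    pow_le_pow_right₀ hR (Nat.le_add_left _ _)
  have h2 : ((K + 1 : ℝ) ^ c * (K * R ^ K * (K' * R ^ K' * δ))) =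
      ((K + 1 : ℝ) ^ c * (K * K')) * R ^ (K + K') * δ := by
    rw [pow_add]
    ring
  rw [h2]
  refine mul_le_mul_of_nonneg_right (mul_le_mul ?_ h1 (by positivity) (by positivity)) hδ
  push_cast
  have : (0 : ℝ) ≤ K + K' := by positivity
  linarith

theorem QB.sum {m K : ℕ} {R δ : ℝ} (hR : 1 ≤ R) (hδ : 0 ≤ δ) (P : Fin m → Pl c)
    (h : ∀ i, QB K R δ (P i)) : QB (m * K + K) R δ (∑ i, P i) := by
  refine ⟨(totalDegree_finsetSum _ _).trans (Finset.sup_le fun i _ =>
    (h i).1.trans (Nat.le_add_left _ _)), cb_mono (cb_sum _ _ _ fun i _ => (h i).2) ?_⟩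
  rw [Finset.sum_const, Finset.card_univ, Fintype.card_fin, nsmul_eq_mul]
  have h1 : R ^ K ≤ R ^ (m * K + K) := pow_le_pow_right₀ hR (Nat.le_add_left _ _)
  rw [← mul_assoc, ← mul_assoc]
  refine mul_le_mul_of_nonneg_right (mul_le_mul ?_ h1 (by positivity) (by positivity)) hδ
  push_cast
  have : (0 : ℝ) ≤ K := by positivity
  linarith

theorem QB.pderiv {K : ℕ} {R δ : ℝ} {P : Pl c} (hR : 1 ≤ R) (hδ : 0 ≤ δ) (h : QB K R δ P)
    (i : Fin c) : QB (K * K + K) R δ (MvPolynomial.pderiv i P) := by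
  refine ⟨(totalDegree_pderiv_le' h.1 i).trans (Nat.le_add_left _ _),
    cb_mono (cb_pderiv (mul_nonneg (kr_nonneg K hR) hδ) h.1 h.2 i) ?_⟩
  have h1 : R ^ K ≤ R ^ (K * K + K) := pow_le_pow_right₀ hR (Nat.le_add_left _ _)
  rw [← mul_assoc, ← mul_assoc]
  refine mul_le_mul_of_nonneg_right (mul_le_mul ?_ h1 (by positivity) (by positivity)) hδ
  push_cast
  have : (0 : ℝ) ≤ K := by positivity
  linarith

/-! ### The chain rule and Cramer's rule -/

/-- The chain rule. -/
theorem pderiv_bind (π : Fin c → Pl N) (G : Pl c) (a : Fin N) :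
    MvPolynomial.pderiv a (bind₁ π G) =
      ∑ i, bind₁ π (MvPolynomial.pderiv i G) * MvPolynomial.pderiv a (π i) := by
  classical
  induction G using MvPolynomial.induction_on with
  | C r => simp
  | add p q hp hq => simp only [map_add, hp, hq, add_mul, Finset.sum_add_distrib]
  | mul_X p i hp =>
    have h2 : ∀ x : Fin c, MvPolynomial.pderiv x (X i : Pl c) = if x = i then 1 else 0 := by
      intro x
      rw [pderiv_X, Pi.single_apply]
      by_cases h : x = i
      · rw [if_pos h, if_pos h.symm]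
      · rw [if_neg h, if_neg (Ne.symm h)]
    simp only [map_mul, bind₁_X_right, Derivation.leibniz, smul_eq_mul, hp, map_add, add_mul,
      Finset.sum_add_distrib, h2]
    have h1 : (∑ x : Fin c, bind₁ π p * bind₁ π (if x = i then (1 : Pl c) else 0) *
        MvPolynomial.pderiv a (π x)) = bind₁ π p * MvPolynomial.pderiv a (π i) := by
      rw [Finset.sum_eq_single i]
      · simp
      · intro b _ hb
        rw [if_neg hb, map_zero, mul_zero, zero_mul]
      · intro h
        exact absurd (Finset.mem_univ i) h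
    rw [h1, Finset.mul_sum]
    congr 1
    exact Finset.sum_congr rfl fun x _ => by ring

/-- The iterated derivative. -/
noncomputable def itd (l : List (Fin c)) (F : Pl c) : Pl c :=
  l.foldr (fun i G => MvPolynomial.pderiv i G) F

theorem itd_cons (i : Fin c) (l : List (Fin c)) (F : Pl c) :
    itd (i :: l) F = MvPolynomial.pderiv i (itd l F) := rfl

theorem itd_snoc (i : Fin c) (l : List (Fin c)) (F : Pl c) :
    itd (l ++ [i]) F = itd l (MvPolynomial.pderiv i F) := by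
  unfold itd
  rw [List.foldr_append]
  rfl

/-- The Jacobian matrix. -/
noncomputable def jac (π : Fin c → Pl N) (e : Fin c → Fin N) : Matrix (Fin c) (Fin c) (Pl N) :=
  Matrix.of fun i k => MvPolynomial.pderiv (e k) (π i)

theorem step_eq (π : Fin c → Pl N) (e : Fin c → Fin N) (G : Pl c) (s : ℕ) (i : Fin c) :
    (jac π e).det ^ (s + 2) * bind₁ π (MvPolynomial.pderiv i G) =
      ∑ k, (jac π e).adjugate k i * ((jac π e).det *
        MvPolynomial.pderiv (e k) ((jac π e).det ^ s * bind₁ π G) -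
        (s : Pl N) * MvPolynomial.pderiv (e k) (jac π e).det *
          ((jac π e).det ^ s * bind₁ π G)) := by
  classical
  have h1 : ∀ k, (jac π e).det * MvPolynomial.pderiv (e k) ((jac π e).det ^ s * bind₁ π G) -
        (s : Pl N) * MvPolynomial.pderiv (e k) (jac π e).det * ((jac π e).det ^ s * bind₁ π G) =
      (jac π e).det ^ (s + 1) * MvPolynomial.pderiv (e k) (bind₁ π G) := by
    intro k
    rw [Derivation.leibniz, Derivation.leibniz_pow]
    simp only [smul_eq_mul, nsmul_eq_mul]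
    rcases Nat.eq_zero_or_pos s with rfl | hs
    · simp
    · obtain ⟨t, rfl⟩ : ∃ t, s = t + 1 := ⟨s - 1, by omega⟩
      simp only [Nat.add_sub_cancel]
      ring
  simp only [h1]
  have h2 : ∀ k, MvPolynomial.pderiv (e k) (bind₁ π G) =
      ∑ l, bind₁ π (MvPolynomial.pderiv l G) * jac π e l k := fun k => pderiv_bind π G (e k)
  have h3 : (jac π e).det * bind₁ π (MvPolynomial.pderiv i G) =
      ∑ k, (jac π e).adjugate k i * MvPolynomial.pderiv (e k) (bind₁ π G) := by
    simp only [h2, Finset.mul_sum]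
    rw [Finset.sum_comm]
    have h4 : ∀ l, (∑ k, (jac π e).adjugate k i * (bind₁ π (MvPolynomial.pderiv l G) *
        jac π e l k)) = bind₁ π (MvPolynomial.pderiv l G) *
          ((jac π e) * (jac π e).adjugate) l i := by
      intro l
      rw [Matrix.mul_apply, Finset.mul_sum]
      exact Finset.sum_congr rfl fun k _ => by ring
    simp only [h4]
    rw [Matrix.mul_adjugate]
    simp only [Matrix.smul_apply, Matrix.one_apply, smul_eq_mul, mul_ite, mul_one, mul_zero]
    rw [Finset.sum_ite_eq' Finset.univ i]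
    simp only [Finset.mem_univ, if_true]
    ring
  calc (jac π e).det ^ (s + 2) * bind₁ π (MvPolynomial.pderiv i G)
      = (jac π e).det ^ (s + 1) * ((jac π e).det * bind₁ π (MvPolynomial.pderiv i G)) := by ring
    _ = _ := by
        rw [h3, Finset.mul_sum]
        exact Finset.sum_congr rfl fun k _ => by ring

/-- The degree of a composition. -/
theorem totalDegree_bind_le {π : Fin c → Pl N} {K₀ D : ℕ} (hπ : ∀ i, (π i).totalDegree ≤ K₀)
    {F : Pl c} (hF : F.totalDegree ≤ D) : (bind₁ π F).totalDegree ≤ D * K₀ := by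
  classical
  rw [F.as_sum, map_sum]
  refine (totalDegree_finsetSum _ _).trans (Finset.sup_le fun e he => ?_)
  rw [bind₁_monomial]
  refine (totalDegree_mul _ _).trans ?_
  rw [totalDegree_C, zero_add]
  refine (totalDegree_finsetProd _ _).trans ?_
  have h1 : ∑ i ∈ e.support, (π i ^ e i).totalDegree ≤ ∑ i ∈ e.support, e i * K₀ :=
    Finset.sum_le_sum fun i _ => (totalDegree_pow _ _).trans (Nat.mul_le_mul_left _ (hπ i))
  refine h1.trans ?_
  rw [← Finset.sum_mul]
  refine Nat.mul_le_mul_right _ ?_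
  exact (le_totalDegree he).trans hF

theorem pb_nat (s : ℕ) {R : ℝ} (hR : 1 ≤ R) : PB s R ((s : ℕ) : Pl c) := by
  have h0 : ((s : ℕ) : Pl c) = C (s : ℝ) := (map_natCast C s).symm
  rw [h0]
  refine ⟨by rw [totalDegree_C]; exact Nat.zero_le _, cb_C ?_⟩
  rw [abs_of_nonneg (by positivity : (0 : ℝ) ≤ s)]
  have h1 : (1 : ℝ) ≤ R ^ s := one_le_pow₀ hR
  have h2 : (0 : ℝ) ≤ s := by positivity
  nlinarith

theorem pb_zero (K : ℕ) {R : ℝ} (hR : 1 ≤ R) : PB K R (0 : Pl c) :=
  ⟨by rw [totalDegree_zero]; exact Nat.zero_le _, cb_zero (kr_nonneg K hR)⟩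

/-- The minor and the adjugate. -/
theorem pb_adj (c N K₀ : ℕ) : ∃ K : ℕ, ∀ (R : ℝ), 1 ≤ R → ∀ (π : Fin c → Pl N)
    (e : Fin c → Fin N), (∀ i, PB K₀ R (π i)) →
    PB K R (jac π e).det ∧ ∀ k i, PB K R ((jac π e).adjugate k i) := by
  classical
  obtain ⟨K₁, h₁⟩ := pb_det N c (K₀ * K₀ + K₀ + 1)
  refine ⟨K₁, fun R hR π e hπ => ?_⟩
  have h0 : ∀ i k, PB (K₀ * K₀ + K₀ + 1) R (jac π e i k) := fun i k =>
    ((hπ i).pderiv hR (e k)).mono (Nat.le_succ _) hR
  refine ⟨h₁ R hR _ h0, fun k i => ?_⟩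
  rw [Matrix.adjugate_apply]
  refine h₁ R hR _ fun a b => ?_
  rw [Matrix.updateRow_apply]
  split_ifs
  · rw [Pi.single_apply]
    split_ifs
    · exact (PB.one hR).mono (Nat.le_add_left _ _) hR
    · exact pb_zero _ hR
  · exact h0 a b

/-- The derivatives of `F`, on the image. -/
theorem chain (c N K₀ D : ℕ) : ∀ n : ℕ, ∃ K : ℕ, ∀ (R δ : ℝ), 1 ≤ R → 0 ≤ δ →
    ∀ (π : Fin c → Pl N) (e : Fin c → Fin N) (F : Pl c), (∀ i, PB K₀ R (π i)) →
    F.totalDegree ≤ D → CB (bind₁ π F) δ → ∀ l : List (Fin c), l.length ≤ n →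
    QB K R δ ((jac π e).det ^ (2 * l.length) * bind₁ π (itd l F)) := by
  obtain ⟨K₁, h₁⟩ := pb_adj c N K₀
  intro n
  induction n with
  | zero =>
    refine ⟨D * K₀ + 1, fun R δ hR hδ π e F hπ hF hb l hl => ?_⟩
    obtain rfl : l = [] := List.length_eq_zero_iff.1 (Nat.le_zero.1 hl)
    rw [List.length_nil, mul_zero, pow_zero, one_mul]
    refine ⟨(totalDegree_bind_le (fun i => (hπ i).1) hF).trans (Nat.le_succ _), cb_mono hb ?_⟩
    have h2 : (1 : ℝ) ≤ R ^ (D * K₀ + 1) := one_le_pow₀ hR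
    have h3 : (1 : ℝ) ≤ ((D * K₀ + 1 : ℕ) : ℝ) := by
      push_cast
      have : (0 : ℝ) ≤ (D : ℝ) * K₀ := by positivity
      linarith
    have h4 : (1 : ℝ) ≤ ((D * K₀ + 1 : ℕ) : ℝ) * R ^ (D * K₀ + 1) := by nlinarith
    nlinarith
  | succ n ih =>
    obtain ⟨K, hK⟩ := ih
    -- constants
    let A₁ := K * K + K
    let A₂ := (K₁ + 1) ^ N * (K₁ * A₁) + (K₁ + A₁)
    let B₁ := K₁ * K₁ + K₁
    let B₂ := (2 * n + 1) ^ N * (2 * n * B₁) + (2 * n + B₁)
    let B₃ := (B₂ + 1) ^ N * (B₂ * K) + (B₂ + K)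
    let E₁ := (K₁ + 1) ^ N * (K₁ * (A₂ + B₃)) + (K₁ + (A₂ + B₃))
    refine ⟨c * E₁ + E₁ + K, fun R δ hR hδ π e F hπ hF hb l hl => ?_⟩
    cases l with
    | nil => exact (hK R δ hR hδ π e F hπ hF hb [] (Nat.zero_le _)).mono (Nat.le_add_left _ _) hR hδ
    | cons i l =>
      have hl' : l.length ≤ n := by
        rw [List.length_cons] at hl
        omega
      rw [itd_cons, List.length_cons, show 2 * (l.length + 1) = 2 * l.length + 2 by ring,
        step_eq]
      obtain ⟨hm, hadj⟩ := h₁ R hR π e hπ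
      have hH := hK R δ hR hδ π e F hπ hF hb l hl'
      refine (QB.sum hR hδ _ fun k => ?_).mono (Nat.le_add_right _ _) hR hδ
      refine QB.mul hR hδ (hadj k i) (QB.sub hR hδ ?_ ?_)
      · exact QB.mul hR hδ hm (hH.pderiv hR hδ (e k))
      · refine QB.mul hR hδ ?_ hH
        exact PB.mul hR ((pb_nat _ hR).mono (by omega) hR) (hm.pderiv hR (e k))

/-! ### Evaluation and the Taylor expansion -/

/-- The value of a polynomial. -/
theorem eval_le {P : Pl c} {D : ℕ} {r S : ℝ} (hP : P.totalDegree ≤ D) (hr : 0 ≤ r)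
    (h : CB P r) (hS : 1 ≤ S) {p : Fin c → ℝ} (hp : ∀ i, |p i| ≤ S) :
    |eval p P| ≤ (D + 1 : ℝ) ^ c * (r * S ^ D) := by
  classical
  rw [eval_eq']
  refine (Finset.abs_sum_le_sum_abs _ _).trans ((Finset.sum_le_card_nsmul _ _ (r * S ^ D)
    fun e he => ?_).trans ?_)
  · rw [abs_mul, Finset.abs_prod]
    have h1 : ∏ i, |p i ^ e i| ≤ ∏ i, S ^ e i :=
      Finset.prod_le_prod (fun i _ => abs_nonneg _) fun i _ => by
        rw [abs_pow]
        exact pow_le_pow_left₀ (abs_nonneg _) (hp i) _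
    have h2 : ∏ i, S ^ e i ≤ S ^ D := by
      rw [Finset.prod_pow_eq_pow_sum]
      refine pow_le_pow_right₀ hS ?_
      have h3 : (e.sum fun _ x => x) = ∑ i, e i :=
        Finsupp.sum_fintype _ _ fun _ => rfl
      rw [← h3]
      exact (le_totalDegree he).trans hP
    exact mul_le_mul (h e) (h1.trans h2) (Finset.prod_nonneg fun i _ => abs_nonneg _) hr
  · rw [nsmul_eq_mul]
    refine mul_le_mul_of_nonneg_right ?_ (by positivity)
    exact_mod_cast card_support_le hP

theorem totalDegree_pderiv_lt {P : Pl c} {D : ℕ} (hP : P.totalDegree ≤ D + 1) (i : Fin c) :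
    (MvPolynomial.pderiv i P).totalDegree ≤ D := by
  classical
  rw [totalDegree]
  refine Finset.sup_le fun k hk => ?_
  have h1 : coeff k (MvPolynomial.pderiv i P) ≠ 0 := mem_support_iff.1 hk
  rw [coeff_pderiv] at h1
  have h2 : (k + Finsupp.single i 1) ∈ P.support := mem_support_iff.2 (left_ne_zero_of_mul h1)
  have h3 : ((k + Finsupp.single i 1).sum fun _ x => x) ≤ P.totalDegree := le_totalDegree h2
  have h4 : ((k + Finsupp.single i 1).sum fun _ x => x) = (k.sum fun _ x => x) + 1 := by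
    rw [Finsupp.sum_add_index' (fun _ => rfl) (fun _ _ _ => rfl), Finsupp.sum_single_index rfl]
  omega

/-- A polynomial is small if its derivatives at a point are small. -/
theorem taylor (c : ℕ) : ∀ D : ℕ, ∃ K : ℕ, ∀ (r S : ℝ), 0 ≤ r → 1 ≤ S → ∀ (p : Fin c → ℝ)
    (F : Pl c), (∀ i, |p i| ≤ S) → F.totalDegree ≤ D →
    (∀ l : List (Fin c), l.length ≤ D → |eval p (itd l F)| ≤ r) → CB F (K * S ^ K * r) := by
  classical
  intro D
  induction D with
  | zero =>
    refine ⟨1, fun r S hr hS p F hp hF h => ?_⟩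
    have h1 : F = C (coeff 0 F) := totalDegree_eq_zero_iff_eq_C.1 (Nat.le_zero.1 hF)
    have h2 := h [] (Nat.zero_le _)
    have h3 : eval p (itd [] F) = coeff 0 F := by
      change eval p F = _
      conv_lhs => rw [h1]
      rw [eval_C]
    rw [h3] at h2
    rw [h1]
    refine cb_mono (cb_C h2) ?_
    rw [Nat.cast_one, one_mul, pow_one]
    nlinarith
  | succ D ih =>
    obtain ⟨K, hK⟩ := ih
    refine ⟨(D + 2) ^ c * K + 1 + K + (D + 1), fun r S hr hS p F hp hF h => ?_⟩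
    have hd : ∀ i, CB (MvPolynomial.pderiv i F) (K * S ^ K * r) := fun i =>
      hK r S hr hS p _ hp (totalDegree_pderiv_lt hF i) fun l hl => by
        have := h (l ++ [i]) (by rw [List.length_append, List.length_singleton]; omega)
        rwa [itd_snoc] at this
    have h0 : (0 : ℝ) ≤ K * S ^ K * r := by positivity
    have hne : ∀ k : Fin c →₀ ℕ, k ≠ 0 → |coeff k F| ≤ K * S ^ K * r := by
      intro k hk
      obtain ⟨i, hi⟩ : ∃ i, k i ≠ 0 := by
        by_contra hcon
        push Not at hcon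
        exact hk (Finsupp.ext hcon)
      have h1 : k - Finsupp.single i 1 + Finsupp.single i 1 = k := by
        refine tsub_add_cancel_of_le ?_
        rw [Finsupp.single_le_iff]
        omega
      have h2 := hd i (k - Finsupp.single i 1)
      rw [coeff_pderiv, h1, abs_mul] at h2
      have h3 : (1 : ℝ) ≤ |(((k - Finsupp.single i 1 : Fin c →₀ ℕ) i : ℕ) : ℝ) + 1| := by
        rw [abs_of_nonneg (by positivity)]
        have : (0 : ℝ) ≤ (((k - Finsupp.single i 1 : Fin c →₀ ℕ) i : ℕ) : ℝ) := by positivity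
        linarith
      nlinarith [abs_nonneg (coeff k F)]
    have hbig : (K : ℝ) * S ^ K * r ≤
        (((D + 2) ^ c * K + 1 + K + (D + 1) : ℕ) : ℝ) *
          S ^ ((D + 2) ^ c * K + 1 + K + (D + 1)) * r := by
      refine mul_le_mul_of_nonneg_right (mul_le_mul ?_ (pow_le_pow_right₀ hS ?_) ?_ ?_) hr
      · exact_mod_cast (by omega : K ≤ (D + 2) ^ c * K + 1 + K + (D + 1))
      · omega
      · positivity
      · positivity
    intro k
    by_cases hk : k = 0
    · subst hk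
      -- the constant term
      have h2 := h [] (Nat.zero_le _)
      have h3 : CB (F - C (coeff 0 F)) (K * S ^ K * r) := by
        intro k
        by_cases hk : k = 0
        · subst hk
          rw [coeff_sub, coeff_C, if_pos rfl, sub_self, abs_zero]
          exact h0
        · rw [coeff_sub, coeff_C, if_neg (Ne.symm hk), sub_zero]
          exact hne k hk
      have h4 : (F - C (coeff 0 F)).totalDegree ≤ D + 1 := by
        refine (totalDegree_sub _ _).trans (max_le hF ?_)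
        rw [totalDegree_C]
        exact Nat.zero_le _
      have h5 := eval_le h4 h0 h3 hS hp
      rw [map_sub, eval_C] at h5
      have h6 : |coeff 0 F| ≤ |eval p (itd [] F)| + |eval p F - coeff 0 F| := by
        have h7 : coeff 0 F = eval p (itd [] F) - (eval p F - coeff 0 F) := by
          change _ = eval p F - (eval p F - coeff 0 F)
          ring
        conv_lhs => rw [h7]
        exact abs_sub _ _
      refine (h6.trans (add_le_add h2 h5)).trans ?_
      have h8 : (((D + 1 : ℕ) : ℝ) + 1) ^ c * (K * S ^ K * r * S ^ (D + 1)) =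
          ((D + 2 : ℕ) : ℝ) ^ c * K * S ^ (K + (D + 1)) * r := by
        rw [pow_add]
        push_cast
        ring
      rw [h8]
      have h9 : S ^ (K + (D + 1)) ≤ S ^ ((D + 2) ^ c * K + 1 + K + (D + 1)) :=
        pow_le_pow_right₀ hS (by omega)
      have h10 : (1 : ℝ) ≤ S ^ ((D + 2) ^ c * K + 1 + K + (D + 1)) := one_le_pow₀ hS
      have h11 : (0 : ℝ) ≤ ((D + 2 : ℕ) : ℝ) ^ c * K := by positivity
      calc r + ((D + 2 : ℕ) : ℝ) ^ c * K * S ^ (K + (D + 1)) * r
          ≤ 1 * S ^ ((D + 2) ^ c * K + 1 + K + (D + 1)) * r +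
            ((D + 2 : ℕ) : ℝ) ^ c * K * S ^ ((D + 2) ^ c * K + 1 + K + (D + 1)) * r := by
            refine add_le_add ?_ ?_
            · nlinarith
            · exact mul_le_mul_of_nonneg_right (mul_le_mul_of_nonneg_left h9 h11) hr
        _ = (((D + 2 : ℕ) : ℝ) ^ c * K + 1) * S ^ ((D + 2) ^ c * K + 1 + K + (D + 1)) * r := by
            ring
        _ ≤ _ := by
            refine mul_le_mul_of_nonneg_right (mul_le_mul_of_nonneg_right ?_ (by positivity)) hr
            push_cast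
            have : (0 : ℝ) ≤ K + (D + 1) := by positivity
            linarith
    · exact (hne k hk).trans hbig

end SubRow

open SubRow

/-- **Row SUB.** -/
theorem sub_of (hF1 : Flw1Stmt) (hF2 : Flw2Stmt) : SubStmt := by
  classical
  intro c N D d hd
  obtain ⟨K₂, hK₂⟩ := hF2 c 1 N d hd le_rfl
  obtain ⟨dm, hdm⟩ : ∃ dm : ℕ, ∀ i, d i ≤ dm := ⟨∑ i, d i, fun i =>
    Finset.single_le_sum (f := d) (fun _ _ => Nat.zero_le _) (Finset.mem_univ i)⟩
  let K₀ : ℕ := K₂ + dm + 1
  obtain ⟨K₃, hK₃⟩ := chain c N K₀ D D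
  obtain ⟨K₄, hK₄⟩ := taylor c D
  -- the size of the point
  let A : ℕ := (K₀ + 1) ^ N * K₀ + 1
  let E : ℕ := (K₃ + 1) ^ N * K₃
  refine ⟨K₄ * A ^ K₄ * E + (K₀ * K₄ + K₃) + 2 * D, ?_⟩
  intro R κ δ hR hκ hκ1 hδ ξ σ F hξ hCB hσ hT hF hb
  obtain ⟨e, he⟩ := hT
  have hπ : ∀ i, PB K₀ R (wT d N ξ i) := by
    intro i
    have h1 := (hF1 c 1 N d ξ (fun _ => 0) hd le_rfl hξ
      fun _ => isWeightedHomogeneous_zero _ _ _).1 i
    have h2 := (hK₂ R hR ξ (fun _ => 0) hξ (fun _ => isWeightedHomogeneous_zero _ _ _) hCB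
      (fun _ => cb_zero (by linarith))).1 i
    refine ⟨(h1.totalDegree_le.trans (hdm i)).trans (by omega), cb_mono h2 ?_⟩
    exact kr_mono (by omega) hR
  have hm : eval σ (jac (wT d N ξ) e).det = eval σ (minT d ξ e) := rfl
  have hp1 : ∀ l : List (Fin c), l.length ≤ D →
      |eval (fun i => eval σ (wT d N ξ i)) (itd l F)| ≤ E * R ^ K₃ * δ / κ ^ (2 * D) := by
    intro l hl
    obtain ⟨h1, h2⟩ := hK₃ R δ hR hδ (wT d N ξ) e F hπ hF hb l hl
    have h3 := eval_le (S := 1) h1 (mul_nonneg (kr_nonneg K₃ hR) hδ) h2 le_rfl hσ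
    rw [one_pow, mul_one, map_mul, map_pow, abs_mul, abs_pow, hm] at h3
    have h4 : eval σ (bind₁ (wT d N ξ) (itd l F)) =
        eval (fun i => eval σ (wT d N ξ i)) (itd l F) := by
      rw [← MvPolynomial.coe_aeval_eq_eval, RingHom.coe_coe, aeval_bind₁]
      rfl
    rw [h4] at h3
    have h5 : κ ^ (2 * D) ≤ |eval σ (minT d ξ e)| ^ (2 * l.length) :=
      (pow_le_pow_of_le_one hκ.le hκ1 (by omega : 2 * l.length ≤ 2 * D)).trans
        (pow_le_pow_left₀ hκ.le he _)
    rw [le_div_iff₀ (by positivity)]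
    calc |eval (fun i => eval σ (wT d N ξ i)) (itd l F)| * κ ^ (2 * D)
        ≤ |eval (fun i => eval σ (wT d N ξ i)) (itd l F)| *
            |eval σ (minT d ξ e)| ^ (2 * l.length) :=
          mul_le_mul_of_nonneg_left h5 (abs_nonneg _)
      _ ≤ (K₃ + 1 : ℝ) ^ N * (K₃ * R ^ K₃ * δ) := by
          rw [mul_comm]
          exact h3
      _ = E * R ^ K₃ * δ := by
          simp only [E]
          push_cast
          ring
  have hp2 : ∀ i, |eval σ (wT d N ξ i)| ≤ A * R ^ K₀ := by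
    intro i
    have h3 := eval_le (S := 1) (hπ i).1 (kr_nonneg K₀ hR) (hπ i).2 le_rfl hσ
    refine h3.trans ?_
    rw [one_pow, mul_one]
    have h4 : ((A : ℕ) : ℝ) = (K₀ + 1 : ℝ) ^ N * K₀ + 1 := by
      simp only [A]
      push_cast
      ring
    rw [h4]
    have h5 : (0 : ℝ) ≤ R ^ K₀ := by positivity
    nlinarith
  have hS : 1 ≤ (A : ℝ) * R ^ K₀ := by
    have h4 : (1 : ℝ) ≤ A := by
      simp only [A]
      push_cast
      have : (0 : ℝ) ≤ ((K₀ : ℝ) + 1) ^ N * K₀ := by positivity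
      linarith
    have h5 : (1 : ℝ) ≤ R ^ K₀ := one_le_pow₀ hR
    nlinarith
  have hr : 0 ≤ (E : ℝ) * R ^ K₃ * δ / κ ^ (2 * D) := by positivity
  refine cb_mono (hK₄ _ _ hr hS _ F hp2 hF hp1) ?_
  set KK : ℕ := K₄ * A ^ K₄ * E + (K₀ * K₄ + K₃) + 2 * D with hKK
  have h6 : (K₄ : ℝ) * (A * R ^ K₀) ^ K₄ * (E * R ^ K₃ * δ / κ ^ (2 * D)) =
      (K₄ * A ^ K₄ * E : ℝ) * R ^ (K₀ * K₄ + K₃) * δ / κ ^ (2 * D) := by
    rw [mul_pow, ← pow_mul, pow_add]
    ring
  rw [h6]
  have h7 : (K₄ * A ^ K₄ * E : ℝ) ≤ KK := by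
    rw [hKK]
    push_cast
    have : (0 : ℝ) ≤ (K₀ * K₄ + K₃ : ℝ) + 2 * D := by positivity
    linarith
  have h8 : R ^ (K₀ * K₄ + K₃) ≤ R ^ KK := pow_le_pow_right₀ hR (by omega)
  have h9 : κ ^ KK ≤ κ ^ (2 * D) := pow_le_pow_of_le_one hκ.le hκ1 (by omega)
  refine div_le_div₀ (by positivity) ?_ (by positivity) h9
  exact mul_le_mul_of_nonneg_right (mul_le_mul h7 h8 (by positivity) (by positivity)) hδ

end Pool.STAT
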