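import Pool.Agent.H99.STAT.Cmrw
import Pool.Agent.H36.STAT.Dgb
import Pool.Agent.H90.STAT.Adx

/-!
# Row CMRW of layer 2, without hypotheses
-/

set_option autoImplicit false

namespace Pool.STAT

/-- **Row CMRW.** -/
theorem cmrw_thm : CmrwStmt := cmrw_of AdxRow.adx_thm dgb_thm

end Pool.STAT
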