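import Pool.Agent.H19.STAT.Sys
import Pool.Agent.H33.BFL.REN
import Pool.Agent.H39.BFL.Prob

/-!
# Row CMRW of the weighted core (layer 2)

Polynomials of the closed labels which are small at the points are small on the natural boxes.
-/

set_option autoImplicit false

namespace Pool.STAT

open Finset MvPolynomial
open Pool.Agent.H49.Ent Pool.Agent.H32.Dense Pool.STK Pool.KS3
open Pool.BFL (Pl CB Pb P2 MC alt)

namespace CmrRow

/-- The values at the natural coordinates. -/
noncomputable def av (n : ℕ) (y : Fin n → ℝ) (j : ℕ) : ℝ :=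
  if h : j < n then 4 * y ⟨j, h⟩ - 1 else 0

/-- The polynomial in the unit box. -/
noncomputable def pu (n : ℕ) (F : PN) : Pl n :=
  aeval (fun j : ℕ => if h : j < n then (C 4 * X ⟨j, h⟩ - C 1 : Pl n) else 0) F

theorem eval_pu (n : ℕ) (F : PN) (y : Fin n → ℝ) : eval y (pu n F) = eval (av n y) F := by
  unfold pu
  rw [aeval_def, algebraMap_eq, eval_eval₂]
  have h1 : (eval y).comp (C : ℝ →+* Pl n) = RingHom.id ℝ := by
    ext x
    simp
  rw [h1]
  have h2 : (fun t => eval y (if h : t < n then (C 4 * X ⟨t, h⟩ - C 1 : Pl n) else 0)) =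
      av n y := by
    funext t
    unfold av
    by_cases h : t < n
    · rw [dif_pos h, dif_pos h, map_sub, map_mul, eval_C, eval_C, eval_X]
    · rw [dif_neg h, dif_neg h, map_zero]
  rw [h2]
  rfl

/-- Degrees. -/
theorem deg_aeval {τ : Type} {D K : ℕ} {θ : ℕ → MvPolynomial τ ℝ} {F : PN}
    (hθ : ∀ i ∈ F.vars, (θ i).totalDegree ≤ K) (hF : F.totalDegree ≤ D) :
    (aeval θ F : MvPolynomial τ ℝ).totalDegree ≤ D * K := by
  classical
  rw [aeval_def, eval₂_eq]
  refine (totalDegree_finsetSum _ _).trans (Finset.sup_le fun e he => ?_)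
  refine (totalDegree_mul _ _).trans ?_
  rw [algebraMap_eq, totalDegree_C, zero_add]
  refine (totalDegree_finsetProd _ _).trans ?_
  have h1 : ∑ i ∈ e.support, (θ i ^ e i).totalDegree ≤ ∑ i ∈ e.support, e i * K := by
    refine Finset.sum_le_sum fun i hi => (totalDegree_pow _ _).trans (Nat.mul_le_mul_left _ ?_)
    exact hθ i ((mem_vars i).2 ⟨e, he, hi⟩)
  refine h1.trans ?_
  rw [← Finset.sum_mul]
  exact Nat.mul_le_mul_right _ ((le_totalDegree he).trans hF)

theorem deg_pu (n : ℕ) {F : PN} {D : ℕ} (hF : F.totalDegree ≤ D) : (pu n F).totalDegree ≤ D := by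
  have h := deg_aeval (K := 1)
    (θ := fun j : ℕ => if h : j < n then (C 4 * X ⟨j, h⟩ - C 1 : Pl n) else 0) (F := F)
    (fun i _ => by
      by_cases h : i < n
      · simp only [dif_pos h]
        refine (totalDegree_sub _ _).trans (max_le ?_ ?_)
        · refine (totalDegree_mul _ _).trans ?_
          rw [totalDegree_C, totalDegree_X]
        · rw [totalDegree_C]
          exact Nat.zero_le _
      · simp only [dif_neg h, totalDegree_zero]
        exact Nat.zero_le _) hF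
  rw [mul_one] at h
  exact h

/-- The value of a polynomial in the natural coordinates. -/
theorem eval_nat (hA : AdxStmt) {n : ℕ} {Φ : ℕ → PN} (hΦ : TriN Φ) (g : ℕ → ℕ) {F : PN}
    (hF : F.vars ⊆ range n) (b : ℕ → ℝ) :
    eval (fun i : Fin n => ((2 : ℝ) ^ g i * (b i - eval b (Φ i)) + 1) / 4)
      (pu n (bind₁ (nuc g Φ) F)) = eval b F := by
  rw [eval_pu]
  obtain ⟨_, _, _, _, _, _, _, hnuc⟩ := hA.2 (fun _ => 1) Φ rfl (fun _ => le_rfl) hΦ
  obtain ⟨_, hv, he⟩ := hnuc g
  set y : Fin n → ℝ := fun i : Fin n => ((2 : ℝ) ^ g i * (b i - eval b (Φ i)) + 1) / 4 with hy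
  have h1 : eval (av n y) (bind₁ (nuc g Φ) F) =
      eval (fun i => eval (av n y) (nuc g Φ i)) F := by
    rw [← MvPolynomial.coe_aeval_eq_eval, RingHom.coe_coe, aeval_bind₁]
    rfl
  rw [h1]
  -- agreement on the variables
  have h2 : ∀ i ∈ range n, eval (av n y) (nuc g Φ i) = b i := by
    intro i hi
    rw [← he b i]
    refine hom_congr_vars (by ext; simp) ?_ rfl
    intro j hj _
    have hj' : j < n := by
      have a1 := Finset.mem_range.1 (hv i hj)
      have a2 := Finset.mem_range.1 hi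
      omega
    rw [eval_X, eval_X]
    unfold av
    rw [dif_pos hj', hy]
    ring
  refine hom_congr_vars (by ext; simp) ?_ rfl
  intro i hi _
  rw [eval_X, eval_X]
  exact h2 i (hF hi)

end CmrRow

open CmrRow in
/-- **Row CMRW.** -/
theorem cmrw_of (hA : AdxStmt) (hG : DgbStmt) : CmrwStmt := by
  classical
  intro n K K' η hn hη hη1
  obtain ⟨Kn, hKn⟩ := hG n K (fun _ => 1) rfl (fun _ => le_rfl)
  obtain ⟨CR, hCR, hren⟩ := Pool.Agent.H33.BFL.ren_thm n (K' * Kn) 1 le_rfl
  have hl2 : 0 < Real.log 2 := Real.log_pos (by norm_num)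
  have hl21 : Real.log 2 ≤ 1 := by
    have := Real.log_two_lt_d9
    linarith
  have hn0 : (0 : ℝ) ≤ n := Nat.cast_nonneg n
  have hCR0 : 0 < CR := by linarith
  set κ₀ : ℝ := η * Real.log 2 / (4 * CR) with hκ₀
  have hκ0 : 0 < κ₀ := by positivity
  refine ⟨κ₀, hκ0, ⌈2 * CR * (2 * n * Real.log 2 + 1) / (η * Real.log 2)⌉₊ + 1, ?_⟩
  intro J z M σ κ C₁ D q hz hκ hOK k hk φ Gd S₀ hφ hφv hS₀ hGd hb
  have hp := hOK.isLaw
  have hz0 : (0 : ℝ) ≤ z := Nat.cast_nonneg z
  have hz1 : 2 * CR * (2 * n * Real.log 2 + 1) ≤ z * (η * Real.log 2) := by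
    have h1 : 2 * CR * (2 * n * Real.log 2 + 1) / (η * Real.log 2) ≤ z := by
      refine (Nat.le_ceil _).trans ?_
      exact_mod_cast (by omega :
        ⌈2 * CR * (2 * n * Real.log 2 + 1) / (η * Real.log 2)⌉₊ ≤ z)
    rwa [div_le_iff₀ (by positivity)] at h1
  set θ : ℝ := 2 * n * Real.log 2 + κ₀ * z with hθ
  have hθ0 : 0 ≤ θ := by positivity
  have hexp : CR * (θ + 1) / η ≤ z * Real.log 2 := by
    rw [div_le_iff₀ hη]
    have e1 : CR * κ₀ = η * Real.log 2 / 4 := by
      rw [hκ₀]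
      field_simp
    have e2 : CR * (θ + 1) = CR * (2 * n * Real.log 2 + 1) + CR * κ₀ * z := by
      rw [hθ]
      ring
    rw [e2, e1]
    have e3 : 0 ≤ η * Real.log 2 * z := by positivity
    nlinarith
  -- the data
  set f : D.Ω → Fin n → ℤ := fun ω i => ⌊(2 : ℝ) ^ (D.g k i + z) * D.rh k ω i⌋ with hf
  have hf1 : ∀ ω, 0 < q ω → ∀ i : Fin n, -(2 : ℤ) ^ z ≤ f ω i ∧ f ω i ≤ 2 ^ z := by
    intro ω hω i
    have h1 := hOK.hgt k hk ω hω i i.2.le
    have h2 : |(2 : ℝ) ^ (D.g k i + z) * D.rh k ω i| ≤ 2 ^ z := by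
      rw [abs_mul, abs_of_pos (by positivity), pow_add, mul_comm ((2 : ℝ) ^ D.g k i), mul_assoc]
      have h3 : (2 : ℝ) ^ D.g k i * |D.rh k ω i| ≤ 1 := by
        rw [le_div_iff₀ (by positivity)] at h1
        linarith
      nlinarith [show (0 : ℝ) < 2 ^ z by positivity]
    rw [abs_le] at h2
    constructor
    · have h3 : ((-(2 : ℤ) ^ z : ℤ) : ℝ) ≤ (2 : ℝ) ^ (D.g k i + z) * D.rh k ω i := by
        push_cast
        exact h2.1
      exact Int.le_floor.2 h3
    · have h3 : (f ω i : ℝ) ≤ 2 ^ z := (Int.floor_le _).trans h2.2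
      exact_mod_cast h3
  set Y : D.Ω → Fin n → ℕ := fun ω i => if 0 < q ω then (f ω i + 2 ^ z).toNat else 0 with hY
  have hYlt : ∀ ω i, Y ω i < 2 ^ (z + 2) := by
    intro ω i
    have hpos : 0 < 2 ^ (z + 2) := by positivity
    simp only [hY]
    split_ifs with h
    · have h1 := hf1 ω h i
      have h2 : (2 : ℕ) ^ (z + 2) = 2 ^ z * 4 := by rw [pow_add]; norm_num
      have h3 : (0 : ℤ) < 2 ^ z := by positivity
      have h4 : (((2 : ℕ) ^ (z + 2) : ℕ) : ℤ) = 2 ^ z * 4 := by rw [h2]; push_cast; ring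
      have h5 : f ω i + 2 ^ z < ((2 ^ (z + 2) : ℕ) : ℤ) := by
        rw [h4]
        linarith [h1.2]
      omega
    · exact hpos
  have hYf : ∀ ω, 0 < q ω → ∀ i, (Y ω i : ℤ) = f ω i + 2 ^ z := by
    intro ω hω i
    simp only [hY]
    rw [if_pos hω, Int.toNat_of_nonneg]
    linarith [(hf1 ω hω i).1]
  set Pn : D.Γ → Pl n := fun x => pu n (bind₁ (nuc (D.g k) (D.P k x)) (φ x)) with hPn
  have hPdeg : ∀ x, (Pn x).totalDegree ≤ K' * Kn := by
    intro x
    refine deg_pu n ?_
    exact deg_aeval (fun i hi => (hKn (D.P k x) (D.g k) (hOK.P_tri k x)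
      (fun i _ => hOK.P_deg k x i) i (Finset.mem_range.1 (hφv x hi)).le).2.2.2) (hφ x)
  have hent : n * (((z + 2 : ℕ) : ℝ) * Real.log 2) - θ ≤ CH q Y (D.c k) := by
    have h1 := hOK.full k hk
    have h2 : CH q Y (D.c k) = CH q f (D.c k) := by
      refine CH_congr hp.nonneg ?_ ?_ (fun _ _ _ _ h => h) (fun _ _ _ _ h => h)
      · intro ω ω' a b h
        have h3 := (Prod.ext_iff.1 h).1
        funext i
        have h4 : Y ω i = Y ω' i := congrFun h3 i
        have h5 := hYf ω a i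
        have h6 := hYf ω' b i
        rw [h4] at h5
        linarith
      · intro ω ω' a b h
        have h3 := (Prod.ext_iff.1 h).1
        funext i
        have h4 : f ω i = f ω' i := congrFun h3 i
        have h5 := hYf ω a i
        have h6 := hYf ω' b i
        rw [h4] at h5
        exact_mod_cast h5.trans h6.symm
    rw [h2]
    have h3 : κ * z ≤ κ₀ * z := mul_le_mul_of_nonneg_right hκ hz0
    have h4 : (n : ℝ) * (((z + 2 : ℕ) : ℝ) * Real.log 2) - θ =
        n * (z * Real.log 2) - κ₀ * z := by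
      rw [hθ]
      push_cast
      ring
    rw [h4]
    linarith
  have hfin := hren D.Ω D.Γ q (z + 2) Y (D.c k) Pn (fun ω => Gd ω ∧ 0 < q ω) S₀ θ η hp hYlt
    hPdeg hθ0 hη hη1 hent ?_ hS₀ ?_ ?_
  · refine (Pool.Agent.H39.BFL.Pb_mono hp.nonneg fun ω hω hnot hall => ?_).trans hfin
    apply hnot
    intro b hbx
    have h1 := eval_nat hA (hOK.P_tri k (D.c k ω)) (D.g k) (hφv (D.c k ω)) b
    rw [← h1]
    refine (hall _ ?_).trans (mul_le_mul_of_nonneg_right (Real.exp_le_exp.2 (hexp.trans ?_))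
      (hS₀ _).le)
    · intro i
      have h2 := hbx i i.2
      have h3 : |(2 : ℝ) ^ D.g k i * (b i - eval b (D.P k (D.c k ω) i))| ≤ 1 := by
        rw [abs_mul, abs_of_pos (by positivity)]
        rw [le_div_iff₀ (by positivity)] at h2
        linarith
      rw [abs_le] at h3 ⊢
      constructor <;> linarith [h3.1, h3.2]
    · nlinarith
  · refine le_trans (Pool.Agent.H39.BFL.Pb_mono hp.nonneg fun ω hω hnot hG => ?_)
      (hGd.trans (by linarith))
    exact hnot ⟨hG, hω⟩
  · refine hexp.trans (mul_le_mul_of_nonneg_right ?_ hl2.le)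
    push_cast
    linarith
  · rintro ω ⟨hG, hω⟩
    refine ⟨fun i : Fin n => ((2 : ℝ) ^ D.g k i *
      (D.X ω i - eval (D.X ω) (D.P k (D.c k ω) i)) + 1) / 4, fun i => ?_, ?_⟩
    · have h1 : (Y ω i : ℝ) = (f ω i : ℝ) + 2 ^ z := by exact_mod_cast hYf ω hω i
      rw [h1]
      have h2 := Int.floor_le ((2 : ℝ) ^ (D.g k i + z) * D.rh k ω i)
      have h3 := Int.lt_floor_add_one ((2 : ℝ) ^ (D.g k i + z) * D.rh k ω i)
      have h4 : D.rh k ω i = D.X ω i - eval (D.X ω) (D.P k (D.c k ω) i) := rfl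
      simp only
      rw [← h4]
      have h5 : (2 : ℝ) ^ (z + 2) = 2 ^ z * 4 := by rw [pow_add]; norm_num
      have hz2 : (0 : ℝ) < 2 ^ z := by positivity
      have h6 : ((2 : ℝ) ^ D.g k i * D.rh k ω i + 1) / 4 - ((f ω i : ℝ) + 2 ^ z) / 2 ^ (z + 2) =
          ((2 : ℝ) ^ (D.g k i + z) * D.rh k ω i - f ω i) / 2 ^ (z + 2) := by
        rw [h5, pow_add]
        field_simp
        ring
      rw [h6, abs_div, abs_of_pos (show (0 : ℝ) < 2 ^ (z + 2) by positivity)]
      refine div_le_div_of_nonneg_right ?_ (by positivity)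
      rw [abs_le]
      constructor <;> linarith
    · rw [hPn]
      have h1 := eval_nat hA (hOK.P_tri k (D.c k ω)) (D.g k) (hφv (D.c k ω)) (D.X ω)
      rw [h1]
      exact hb ω hG

end Pool.STAT
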