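import Pool.Agent.H99.STAT.Sub
import Pool.Agent.H6.STAT.Flw
import Pool.Agent.H87.STAT.Flw2

/-!
# Row SUB of the weighted core, without hypotheses
-/

set_option autoImplicit false

namespace Pool.STAT

/-- **Row SUB.** -/
theorem sub_thm : SubStmt := sub_of flw1_thm flw2_thm

end Pool.STAT
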